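import Pool.Agent.R780.TCMain

/-!
For the Klein four group `G = Z/2 × Z/2` one has `TC(B_kG) = 2k` for all `k ≥ 1`; hence
`α_G(n) = ⌊n/2⌋` has increments at most one.
-/

open Pool.Agent.R780.TCB

/-- There is a group `G` (finite, of infinite cohomological dimension) such that
`TC(B_kG) = 2k` for all `k ≥ 1`; the sets defining the growth function `α_G` are finite,
`α_G(n) = ⌊n/2⌋`, and all increments `α_G(n+1) - α_G(n)` lie in `{0, 1}`, so they form a bounded
sequence. -/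
theorem Pool.Agent.Results.MP_3527c5_gt.KleinFourTCSequence.result :
    ∃ (G : Type) (_ : Group G), Finite G ∧ InfiniteCohDim G ∧
      (∀ k : ℕ, 1 ≤ k → TC (BnG G k) = (2 * k : ℕ)) ∧
      (∀ n : ℕ, {k : ℕ | 1 ≤ k ∧ TC (BnG G k) ≤ n}.Finite ∧ alpha G n = n / 2) ∧
      ∀ n : ℕ, 0 ≤ (alpha G (n + 1) : ℤ) - alpha G n ∧ (alpha G (n + 1) : ℤ) - alpha G n ≤ 1 := by
  refine ⟨V4, inferInstance, inferInstance, infiniteCohDim_V4, TC_V4, fun n => ⟨?_, alpha_V4 n⟩,
    fun n => ?_⟩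
  · rw [alpha_set]
    exact Set.finite_Icc _ _
  · rw [alpha_V4, alpha_V4]
    constructor <;> omega
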